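import Pool.Agent.J6H57.VT.Stm2

/-!
# The vertex move: counting the lattice points of the quadrilateral
-/

set_option autoImplicit false

namespace Pool.Agent.J6H42.VT

open Pool.Agent.TH176.Nag Pool.Agent.J6H57.VT Finset

/-- an interval of length `l` contains at least `l - 1` integers -/
theorem card_Icc_ge (x y : ℝ) : y - x - 1 ≤ ((Icc ⌈x⌉ ⌊y⌋).card : ℝ) := by
  rw [Int.card_Icc]
  have h1 : ((⌊y⌋ + 1 - ⌈x⌉ : ℤ) : ℝ) ≤ (((⌊y⌋ + 1 - ⌈x⌉).toNat : ℕ) : ℝ) := by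
    exact_mod_cast Int.self_le_toNat _
  push_cast at h1
  have h2 := Int.lt_floor_add_one y
  have h3 := Int.ceil_lt_add_one x
  linarith

/-- an interval of length `l ≥ -1` contains at most `l + 1` integers -/
theorem card_Icc_le {x y : ℝ} (h : 0 ≤ y - x + 1) : ((Icc ⌈x⌉ ⌊y⌋).card : ℝ) ≤ y - x + 1 := by
  rw [Int.card_Icc]
  rcases le_total 0 (⌊y⌋ + 1 - ⌈x⌉) with h0 | h0
  · have h1 : (((⌊y⌋ + 1 - ⌈x⌉).toNat : ℕ) : ℝ) = ((⌊y⌋ + 1 - ⌈x⌉ : ℤ) : ℝ) := by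
      exact_mod_cast congrArg (Int.cast (R := ℝ)) (Int.toNat_of_nonneg h0)
    rw [h1]
    push_cast
    have h2 := Int.floor_le y
    have h3 := Int.le_ceil x
    linarith
  · rw [Int.toNat_of_nonpos h0]
    simpa using h

theorem reg_finite {B μ ν : ℝ} (hμ : 0 ≤ μ) (hν : 0 ≤ ν) (hS : 0 < μ + ν) :
    (Reg 0 B μ ν).Finite := by
  refine ((Icc (0 : ℤ) ⌊B⌋) ×ˢ (Icc (0 : ℤ) ⌊B / (μ + ν)⌋)).finite_toSet.subset ?_
  rintro ⟨x, y⟩ ⟨h0, h1, h2⟩
  have hy : (0 : ℝ) ≤ y := by exact_mod_cast h0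
  simp only [zero_add] at h1 h2
  have hx : (0 : ℝ) ≤ x := le_trans (by positivity) h1
  simp only [coe_product, coe_Icc, Set.mem_prod, Set.mem_Icc, Int.le_floor]
  refine ⟨⟨by exact_mod_cast hx, ?_⟩, h0, ?_⟩
  · have : 0 ≤ ν * (y : ℝ) := by positivity
    linarith
  · rw [le_div_iff₀ hS]
    nlinarith

/-- the number of lattice points of the triangle -/
theorem reg_card {B μ ν : ℝ} (hB2 : 2 ≤ B) (hμ : 0 ≤ μ) (hν : 0 ≤ ν) (hS : 0 < μ + ν) :
    B ^ 2 / (2 * (μ + ν)) - B / (μ + ν) ≤ ((Reg 0 B μ ν).ncard : ℝ) := by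
  classical
  have hB : 0 ≤ B := by linarith
  set N : ℕ := ⌊B / (μ + ν)⌋₊ with hN
  have hBS : 0 ≤ B / (μ + ν) := by positivity
  have hN1 : (N : ℝ) ≤ B / (μ + ν) := Nat.floor_le hBS
  have hN2 : B / (μ + ν) < N + 1 := Nat.lt_floor_add_one _
  set U : Finset (ℤ × ℤ) := (range (N + 1)).biUnion fun b : ℕ =>
    (Icc ⌈μ * (b : ℝ)⌉ ⌊B - ν * b⌋).image fun n => (n, (b : ℤ)) with hU
  have hsub : (U : Set (ℤ × ℤ)) ⊆ Reg 0 B μ ν := by
    intro z hz
    rw [hU, mem_coe, mem_biUnion] at hz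
    obtain ⟨b, hb, hz⟩ := hz
    rw [mem_image] at hz
    obtain ⟨n, hn, rfl⟩ := hz
    rw [mem_Icc, Int.ceil_le, Int.le_floor] at hn
    refine ⟨by positivity, ?_, ?_⟩
    · simpa using hn.1
    · simpa using hn.2
  have hcard : U.card = ∑ b ∈ range (N + 1), (Icc ⌈μ * (b : ℝ)⌉ ⌊B - ν * b⌋).card := by
    rw [hU, card_biUnion]
    · refine sum_congr rfl fun b _ => card_image_of_injective _ ?_
      intro n n' h
      exact (Prod.mk.inj h).1
    · intro b _ b' _ hbb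
      rw [Function.onFun, Finset.disjoint_left]
      intro z hz hz'
      rw [mem_image] at hz hz'
      obtain ⟨n, -, rfl⟩ := hz
      obtain ⟨n', -, h⟩ := hz'
      exact hbb (by exact_mod_cast (Prod.mk.inj h).2.symm)
  have h1 : (U.card : ℝ) ≤ ((Reg 0 B μ ν).ncard : ℝ) := by
    rw [← Set.ncard_coe_finset]
    exact_mod_cast Set.ncard_le_ncard hsub (reg_finite hμ hν hS)
  refine le_trans ?_ h1
  rw [hcard]
  push_cast
  have h2 : ∀ n : ℕ, ∑ b ∈ range n, (B - (μ + ν) * b - 1) =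
      n * (B - 1) - (μ + ν) * (n * (n - 1)) / 2 := by
    intro n
    induction n with
    | zero => simp
    | succ n ih => rw [sum_range_succ, ih]; push_cast; ring
  have h3 : ∑ b ∈ range (N + 1), (B - (μ + ν) * b - 1) ≤
      ∑ b ∈ range (N + 1), ((Icc ⌈μ * (b : ℝ)⌉ ⌊B - ν * b⌋).card : ℝ) := by
    refine sum_le_sum fun b _ => ?_
    have := card_Icc_ge (μ * (b : ℝ)) (B - ν * b)
    linarith
  refine le_trans ?_ h3
  rw [h2]
  push_cast
  have h4 : (μ + ν) * N ≤ B := by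
    rw [le_div_iff₀ hS] at hN1
    linarith
  have h5 : B ≤ (μ + ν) * (N + 1) := by
    rw [div_lt_iff₀ hS] at hN2
    linarith
  have h6 : B ^ 2 / (2 * (μ + ν)) - B / (μ + ν) = (B ^ 2 - 2 * B) / (2 * (μ + ν)) := by
    field_simp
  rw [h6, div_le_iff₀ (by positivity)]
  have hNn : (0 : ℝ) ≤ N := Nat.cast_nonneg _
  set s := μ + ν
  have e : ((N : ℝ) + 1) * (B - 1) - s * ((N + 1) * (N + 1 - 1)) / 2 =
      (N + 1) * (2 * B - 2 - s * N) / 2 := by ring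
  rw [e]
  have h8 : B - 2 ≤ 2 * B - 2 - s * N := by linarith
  have : (B) * (B - 2) ≤ (s * (N + 1)) * (2 * B - 2 - s * N) :=
    mul_le_mul h5 h8 (by linarith) (by positivity)
  nlinarith

end Pool.Agent.J6H42.VT
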