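import Pool.Agent.J6H42.VT.CountQ

/-!
# The vertex move: the quadrilateral has the same area as the triangle
-/

set_option autoImplicit false

namespace Pool.Agent.J6H42.VT

open Pool.Agent.TH176.Nag Pool.Agent.J6H57.VT Finset

theorem count : CountT := by
  intro K ε hε
  obtain ⟨hp, hq, hS, hm⟩ := par_facts K
  obtain ⟨C, hC, h⟩ := qq_card K
  refine ⟨max 2 ((2 * C + 1 / K.S) / ε), fun B hB => ?_⟩
  have hB2 : 2 ≤ B := (le_max_left _ _).trans hB
  have hB3 : (2 * C + 1 / K.S) / ε ≤ B := (le_max_right _ _).trans hB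
  have hB0 : 0 ≤ B := by linarith
  obtain ⟨h1, h2⟩ := h B (K.p * B / K.S) hB0
  refine ⟨h1, h2.trans ?_⟩
  have h3 := reg_card hB2 K.hμ K.hν K.hS
  have h4 : K.μ + K.ν = K.S := rfl
  rw [h4] at h3
  rw [div_le_iff₀ hε] at hB3
  have h5 : C * (B + 1) + B / K.S ≤ ε * B ^ 2 := by
    have e : B / K.S = 1 / K.S * B := by ring
    rw [e]
    have h6 : 0 ≤ 1 / K.S := by positivity
    nlinarith
  linarith

end Pool.Agent.J6H42.VT
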