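import Pool.Agent.J6H42.VT.Count

/-!
# The vertex move: counting the lattice points of the quadrilateral
-/

set_option autoImplicit false

namespace Pool.Agent.J6H42.VT

open Pool.Agent.TH176.Nag Pool.Agent.J6H57.VT Finset

theorem sum_l1 (D γ : ℝ) (n : ℕ) :
    ∑ a ∈ range n, (D - γ * a) = n * D - γ * (n * (n - 1)) / 2 := by
  induction n with
  | zero => simp
  | succ n ih => rw [sum_range_succ, ih]; push_cast; ring

theorem bound1 {D γ x k : ℝ} (hD : 0 ≤ D) (hγ : 0 ≤ γ) (hk : 0 ≤ k) (h1 : k ≤ x) (h2 : x ≤ k + 1) :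
    (k + 1) * D - γ * ((k + 1) * (k + 1 - 1)) / 2 ≤ x * D - γ * x ^ 2 / 2 + D + γ * x / 2 := by
  have h3 : 0 ≤ D * (x - k) := mul_nonneg hD (by linarith)
  have h4 : 0 ≤ (1 - (x - k)) * (x + k) := mul_nonneg (by linarith) (by linarith)
  have h5 : 0 ≤ γ * ((1 - (x - k)) * (x + k)) := mul_nonneg hγ h4
  nlinarith

theorem bound2 {B m x y k n : ℝ} (hm : 0 < m) (hB : 0 ≤ B) (hk : 0 ≤ k) (h1 : k ≤ x)
    (h2 : x ≤ k + 1) (hy : m * y = B) (h3 : n ≤ y) (h4 : y ≤ n + 1) :
    (B * (n + 1) - m * ((n + 1) * (n + 1 - 1)) / 2) - (B * (k + 1) - m * ((k + 1) * (k + 1 - 1)) / 2) ≤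
      B ^ 2 / (2 * m) - B * x + m * x ^ 2 / 2 + B + m * x / 2 + m := by
  have e1 : B ^ 2 / (2 * m) = m * y ^ 2 / 2 := by
    rw [← hy]
    field_simp
  rw [e1, ← hy]
  have h5 : 0 ≤ (y - n) * (1 - (y - n)) := mul_nonneg (by linarith) (by linarith)
  have h6 : 0 ≤ (x - k) * (1 - (x - k)) := mul_nonneg (by linarith) (by linarith)
  have hy0 : 0 ≤ y := by
    by_contra hy0
    push Not at hy0
    nlinarith
  have h7 : 0 ≤ y * (1 - (x - k)) := mul_nonneg hy0 (by linarith)
  have h8 : 0 ≤ (x - k) * x := mul_nonneg (by linarith) (by linarith)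
  have h9 : (y - n) ^ 2 ≤ 1 := by nlinarith
  have key : 0 ≤ (m * y ^ 2 / 2 - m * y * x + m * x ^ 2 / 2 + m * y + m * x / 2 + m) -
      ((m * y * (n + 1) - m * ((n + 1) * (n + 1 - 1)) / 2) -
        (m * y * (k + 1) - m * ((k + 1) * (k + 1 - 1)) / 2)) := by
    have : (m * y ^ 2 / 2 - m * y * x + m * x ^ 2 / 2 + m * y + m * x / 2 + m) -
      ((m * y * (n + 1) - m * ((n + 1) * (n + 1 - 1)) / 2) -
        (m * y * (k + 1) - m * ((k + 1) * (k + 1 - 1)) / 2)) =
        m * ((y * (1 - (x - k)) + (x - k) * x + (x - k) * (1 - (x - k)) / 2) +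
          ((y - n) ^ 2 / 2 + n / 2 + 1)) := by
      ring
    rw [this]
    have hn : -1 ≤ n := by linarith
    refine mul_nonneg hm.le ?_
    nlinarith [sq_nonneg (y - n)]
  linarith

theorem par_facts (K : Par) : 0 < K.p ∧ 0 < K.q ∧ 0 < K.S ∧ (K.m : ℝ) = K.p + K.q + K.S := by
  have h1 := K.hp
  have h2 := K.hq
  have h3 := K.hS
  refine ⟨?_, ?_, ?_, ?_⟩
  · unfold Par.p; linarith
  · unfold Par.q; linarith
  · unfold Par.S; linarith
  · unfold Par.p Par.q Par.S; ring

/-- the leading coefficient -/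
theorem main_eq {B m p q S Z : ℝ} (hm : 0 < m) (hS : 0 < S) (hZ : m ^ 2 < Z) :
    m * B / Z * ((1 - p * q / Z) * m * B / S) -
        (((1 - p * q / Z) * m * m - p * q) / S) * (m * B / Z) ^ 2 / 2 +
      (((1 - p * q / Z) * m + m * p * q / (Z - m ^ 2)) / S) *
        (B ^ 2 / (2 * m) - B * (m * B / Z) + m * (m * B / Z) ^ 2 / 2) = B ^ 2 / (2 * S) := by
  have hZ0 : 0 < Z := lt_trans (by positivity) hZ
  have h1 : Z - m ^ 2 ≠ 0 := by
    have : 0 < Z - m ^ 2 := by linarith
    exact this.ne'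
  field_simp
  ring

theorem final_bound {B α γ b m S Z : ℝ} (hB : 0 ≤ B) (hα : 0 ≤ α) (hγ : 0 ≤ γ) (hb : 0 ≤ b)
    (hm : 0 < m) (hS : 0 < S) (hZ : 0 < Z) :
    α * B / S + γ * (m * B / Z) / 2 + b * (B + m * (m * B / Z) / 2 + m) + (B / m + 1) ≤
      (α / S + γ * (m / Z) / 2 + b * (1 + m * (m / Z) / 2 + m) + 1 / m + 1) * (B + 1) := by
  have : (α / S + γ * (m / Z) / 2 + b * (1 + m * (m / Z) / 2 + m) + 1 / m + 1) * (B + 1) -
      (α * B / S + γ * (m * B / Z) / 2 + b * (B + m * (m * B / Z) / 2 + m) + (B / m + 1)) =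
      α / S + γ * (m / Z) / 2 + b * (1 + m * (m / Z) / 2) + 1 / m + (b * m) * B + B := by
    ring
  have h0 : 0 ≤ α / S + γ * (m / Z) / 2 + b * (1 + m * (m / Z) / 2) + 1 / m + (b * m) * B + B := by
    positivity
  linarith

set_option maxHeartbeats 1000000 in
/-- the number of lattice points of the quadrilateral -/
theorem qq_card (K : Par) : ∃ C : ℝ, 0 ≤ C ∧ ∀ B t : ℝ, 0 ≤ B → (K.QQ B t).Finite ∧
    ((K.QQ B t).ncard : ℝ) ≤ B ^ 2 / (2 * K.S) + C * (B + 1) := by
  classical
  obtain ⟨hp, hq, hS, hm⟩ := par_facts K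
  have hZ := K.hZ
  set p := K.p with hpd
  set q := K.q with hqd
  set S := K.S with hSd
  set Z := K.Z with hZd
  set m : ℝ := (K.m : ℝ) with hmd
  have hm0 : 0 < m := by rw [hm]; positivity
  have hZ0 : 0 < Z := lt_trans (by positivity) hZ
  have hZm : 0 < Z - m ^ 2 := by linarith
  have hpqm : p * q < m ^ 2 := by
    rw [hm]; nlinarith [mul_pos hp hq, mul_pos hp hS, mul_pos hq hS, sq_nonneg (p - q), sq_nonneg S]
  have hZpq : 0 < Z - p * q := by linarith
  set u : ℝ := 1 - p * q / Z with hu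
  have hu1 : u * Z = Z - p * q := by rw [hu]; field_simp
  have hu0 : 0 < u := by
    have : 0 < u * Z := by rw [hu1]; exact hZpq
    exact (mul_pos_iff_of_pos_right hZ0).1 this
  set α : ℝ := u * m with hα
  have hα0 : 0 < α := mul_pos hu0 hm0
  set β : ℝ := α + m * p * q / (Z - m ^ 2) with hβ
  have hβ0 : 0 < β := by rw [hβ]; positivity
  set γ : ℝ := (α * m - p * q) / S with hγ
  have hγ0 : 0 ≤ γ := by
    rw [hγ]
    refine div_nonneg ?_ hS.le
    have h1 : p * q / Z ≤ p * q / m ^ 2 :=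
      div_le_div_of_nonneg_left (by positivity) (by positivity) hZ.le
    have h2 : p * q / m ^ 2 * m ^ 2 = p * q := by field_simp
    have h3 : α * m = (1 - p * q / Z) * m ^ 2 := by rw [hα, hu]; ring
    have h4 : p * q / Z * m ^ 2 ≤ p * q := by
      calc p * q / Z * m ^ 2 ≤ p * q / m ^ 2 * m ^ 2 :=
            mul_le_mul_of_nonneg_right h1 (by positivity)
        _ = p * q := h2
    have h5 : 2 * (p * q) ≤ m ^ 2 := by
      rw [hm]
      nlinarith [mul_pos hp hq, mul_pos hp hS, mul_pos hq hS, sq_nonneg (p - q), sq_nonneg S]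
    rw [h3]
    nlinarith
  refine ⟨α / S + γ * (m / Z) / 2 + β / S * (1 + m * (m / Z) / 2 + m) + 1 / m + 1, by positivity, ?_⟩
  intro B t hB
  set x : ℝ := m * B / Z with hx
  set y : ℝ := B / m with hy
  have hx0 : 0 ≤ x := by positivity
  have hy0 : 0 ≤ y := by positivity
  have hmy : m * y = B := by rw [hy]; field_simp
  have hxy : x ≤ y := by
    rw [hx, hy, div_le_div_iff₀ hZ0 hm0]
    nlinarith
  set N : ℕ := ⌊y⌋₊ with hN
  set k : ℕ := ⌊x⌋₊ with hk
  have hkN : k ≤ N := Nat.floor_le_floor hxy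
  have hk1 : (k : ℝ) ≤ x := Nat.floor_le hx0
  have hk2 : x ≤ k + 1 := (Nat.lt_floor_add_one x).le
  have hN1 : (N : ℝ) ≤ y := Nat.floor_le hy0
  have hN2 : y ≤ N + 1 := (Nat.lt_floor_add_one y).le
  set sh : ℕ → ℝ := fun a => (K.μ - K.J) * a + t with hsh
  set lo : ℕ → ℝ := fun a => if a ≤ k then -(p * q * a) / S else
    -(m * p * q / (Z - m ^ 2) * (B - m * a)) / S with hlo
  set hi : ℕ → ℝ := fun a => α * (B - m * a) / S with hhi
  set U : Finset (ℤ × ℤ) := (range (N + 1)).biUnion fun a : ℕ =>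
    (Icc ⌈lo a - sh a⌉ ⌊hi a - sh a⌋).image fun n => (n, (a : ℤ)) with hU
  have hsub : K.QQ B t ⊆ (U : Set (ℤ × ℤ)) := by
    rintro ⟨n, a'⟩ ⟨h1, h2, h3, h4⟩
    simp only at h1 h2 h3 h4
    have ha' : 0 ≤ a' := by exact_mod_cast h1
    obtain ⟨a, rfl⟩ := Int.eq_ofNat_of_zero_le ha'
    simp only [Int.cast_natCast] at h1 h2 h3 h4
    set c : ℝ := (n : ℝ) + (K.μ - K.J) * a + t with hc
    -- the three bounds
    have b3 : S * c ≤ α * (B - m * a) := by
      have : Z * (S * c) ≤ Z * (α * (B - m * a)) := by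
        have e : Z * (α * (B - m * a)) = B * (m * (Z - p * q)) - m ^ 2 * (Z - p * q) * a := by
          rw [← hu1, hα]; ring
        rw [e]
        linarith
      exact le_of_mul_le_mul_left this hZ0
    have b4 : -(m * p * q / (Z - m ^ 2) * (B - m * a)) ≤ S * c := by
      have : (Z - m ^ 2) * -(m * p * q / (Z - m ^ 2) * (B - m * a)) ≤ (Z - m ^ 2) * (S * c) := by
        have e : (Z - m ^ 2) * -(m * p * q / (Z - m ^ 2) * (B - m * a)) =
            -(m * p * q * (B - m * a)) := by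
          field_simp
        rw [e]
        linarith
      exact le_of_mul_le_mul_left this hZm
    have b5 : 0 ≤ B - m * a := by
      have : 0 ≤ β * (B - m * a) := by rw [hβ]; linarith
      exact nonneg_of_mul_nonneg_right this hβ0
    have haN : a < N + 1 := by
      rw [Nat.lt_succ_iff, hN]
      refine Nat.le_floor ?_
      rw [hy, le_div_iff₀ hm0]
      linarith
    rw [hU, mem_coe, mem_biUnion]
    refine ⟨a, mem_range.2 haN, mem_image.2 ⟨n, ?_, rfl⟩⟩
    rw [mem_Icc, Int.ceil_le, Int.le_floor]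
    have hcn : (n : ℝ) = c - sh a := by rw [hc, hsh]; ring
    rw [hcn]
    constructor
    · refine sub_le_sub_right ?_ _
      rw [hlo]
      simp only
      split_ifs with hak
      · rw [div_le_iff₀ hS]; linarith
      · rw [div_le_iff₀ hS]; linarith
    · refine sub_le_sub_right ?_ _
      rw [hhi, le_div_iff₀ hS]
      linarith
  refine ⟨U.finite_toSet.subset hsub, ?_⟩
  have h1 : ((K.QQ B t).ncard : ℝ) ≤ (U.card : ℝ) := by
    rw [← Set.ncard_coe_finset]
    exact_mod_cast Set.ncard_le_ncard hsub U.finite_toSet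
  refine h1.trans ?_
  set D : ℝ := α * B / S with hD
  have hD0 : 0 ≤ D := by positivity
  set l : ℕ → ℝ := fun a => if a ≤ k then D - γ * a else β / S * B - (β / S * m) * a with hl
  have h2 : (U.card : ℝ) ≤ ∑ a ∈ range (N + 1), (l a + 1) := by
    have h3 : U.card ≤ ∑ a ∈ range (N + 1), (Icc ⌈lo a - sh a⌉ ⌊hi a - sh a⌋).card := by
      rw [hU]
      refine card_biUnion_le.trans (sum_le_sum fun a _ => card_image_le)
    have h4 : (U.card : ℝ) ≤
        ∑ a ∈ range (N + 1), ((Icc ⌈lo a - sh a⌉ ⌊hi a - sh a⌋).card : ℝ) := by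
      exact_mod_cast h3
    refine h4.trans (sum_le_sum fun a ha => ?_)
    have ha1 : (a : ℝ) ≤ y := by
      have : a ≤ N := Nat.lt_succ_iff.1 (mem_range.1 ha)
      exact le_trans (by exact_mod_cast this) hN1
    have ha2 : 0 ≤ B - m * a := by
      rw [← hmy]
      nlinarith
    have e : hi a - sh a - (lo a - sh a) = l a := by
      rw [hhi, hlo, hl]
      simp only
      split_ifs with hak
      · rw [hD, hγ]; field_simp; ring
      · rw [hβ]; field_simp; ring
    have e0 : 0 ≤ l a := by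
      rw [hl]
      simp only
      split_ifs with hak
      · have : (a : ℝ) ≤ k := by exact_mod_cast hak
        have h5 : D - γ * a = (α * (B - m * a) + p * q * a) / S := by
          rw [hD, hγ]; field_simp; ring
        rw [h5]
        positivity
      · have h5 : β / S * B - (β / S * m) * a = β / S * (B - m * a) := by ring
        rw [h5]
        positivity
    have := card_Icc_le (x := lo a - sh a) (y := hi a - sh a) (by rw [e]; linarith)
    rw [e] at this
    exact this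
  have h3 : ∀ n : ℕ, k + 1 ≤ n → ∑ a ∈ range n, l a =
      ((k + 1 : ℝ) * D - γ * ((k + 1) * (k + 1 - 1)) / 2) +
        ((n * (β / S * B) - (β / S * m) * (n * (n - 1)) / 2) -
          ((k + 1) * (β / S * B) - (β / S * m) * ((k + 1) * (k + 1 - 1)) / 2)) := by
    intro n hn
    induction n, hn using Nat.le_induction with
    | base =>
      have : ∑ a ∈ range (k + 1), l a = ∑ a ∈ range (k + 1), (D - γ * a) := by
        refine sum_congr rfl fun a ha => ?_
        rw [hl]
        simp only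
        rw [if_pos (Nat.lt_succ_iff.1 (mem_range.1 ha))]
      rw [this, sum_l1]
      push_cast
      ring
    | succ n hn ih =>
      rw [sum_range_succ, ih, hl]
      simp only
      rw [if_neg (by omega)]
      push_cast
      ring
  rw [sum_add_distrib, h3 (N + 1) (by omega)] at h2
  refine h2.trans ?_
  simp only [sum_const, card_range, nsmul_eq_mul, mul_one]
  have c1 := bound1 (D := D) (γ := γ) (x := x) (k := k) hD0 hγ0 (Nat.cast_nonneg _) hk1 hk2
  have c2 := bound2 (B := B) (m := m) (x := x) (y := y) (k := k) (n := N) hm0 hB (Nat.cast_nonneg _)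
    hk1 hk2 hmy hN1 hN2
  have c3 : ((((N + 1 : ℕ) : ℝ) * (β / S * B) -
      (β / S * m) * (((N + 1 : ℕ) : ℝ) * (((N + 1 : ℕ) : ℝ) - 1)) / 2) -
          ((k + 1) * (β / S * B) - (β / S * m) * ((k + 1) * (k + 1 - 1)) / 2)) ≤
      β / S * (B ^ 2 / (2 * m) - B * x + m * x ^ 2 / 2 + B + m * x / 2 + m) := by
    have := mul_le_mul_of_nonneg_left c2 (show 0 ≤ β / S by positivity)
    refine le_trans (le_of_eq ?_) this
    push_cast
    ring
  have c4 : x * D - γ * x ^ 2 / 2 + β / S * (B ^ 2 / (2 * m) - B * x + m * x ^ 2 / 2) =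
      B ^ 2 / (2 * S) := by
    have := main_eq (B := B) (m := m) (p := p) (q := q) (S := S) (Z := Z) hm0 hS hZ
    rw [← this, hβ, hγ, hα, hu, hx, hD]
  have c5 : ((N + 1 : ℕ) : ℝ) ≤ y + 1 := by push_cast; linarith
  have c6 := final_bound (B := B) (α := α) (γ := γ) (b := β / S) (m := m) (S := S) (Z := Z) hB hα0.le
    hγ0 (by positivity) hm0 hS hZ0
  rw [← hD, ← hx, ← hy] at c6
  linarith

end Pool.Agent.J6H42.VT
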