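import Pool.Agent.J6H42.VT.CountM

/-!
# The vertex move: all lattice points of a slightly smaller quadrilateral are leading exponents
-/

set_option autoImplicit false

namespace Pool.Agent.J6H42.VT

open Pool.Agent.TH176.Nag Pool.Agent.J6H57.VT Finset

theorem Q_add {K : Par} {B B' a a' c c' : ℝ} (h : K.Q B a c) (h' : K.Q B' a' c') :
    K.Q (B + B') (a + a') (c + c') := by
  obtain ⟨h1, h2, h3, h4⟩ := h
  obtain ⟨k1, k2, k3, k4⟩ := h'
  refine ⟨?_, ?_, ?_, ?_⟩ <;> nlinarith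

theorem Q_half {K : Par} {B a c : ℝ} (h : K.Q B a c) : K.Q (B / 2) (a / 2) (c / 2) := by
  obtain ⟨h1, h2, h3, h4⟩ := h
  refine ⟨?_, ?_, ?_, ?_⟩ <;> nlinarith

theorem Q_box (K : Par) : ∃ ρ : ℝ, 0 < ρ ∧ ∀ s a c : ℝ, 0 ≤ a → a ≤ 3 * ρ * s → 0 ≤ c →
    c ≤ 3 * ρ * s → K.Q s a c := by
  obtain ⟨hp, hq, hS, hm⟩ := par_facts K
  have hZ := K.hZ
  have hm0 : 0 < (K.m : ℝ) := by rw [hm]; positivity
  have hZ0 : 0 < K.Z := lt_trans (by positivity) hZ
  have hpqm : K.p * K.q < (K.m : ℝ) ^ 2 := by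
    rw [hm]
    nlinarith [mul_pos hp hq, mul_pos hp hS, mul_pos hq hS, sq_nonneg (K.p - K.q), sq_nonneg K.S]
  have hZpq : 0 < K.Z - K.p * K.q := by linarith
  have hw : 0 < (K.m : ℝ) ^ 2 * (K.Z - K.p * K.q) + K.S * K.Z := by positivity
  refine ⟨K.m * (K.Z - K.p * K.q) / (3 * ((K.m : ℝ) ^ 2 * (K.Z - K.p * K.q) + K.S * K.Z)),
    by positivity, ?_⟩
  set w := (K.m : ℝ) ^ 2 * (K.Z - K.p * K.q) + K.S * K.Z with hwd
  intro s a c ha ha' hc hc'
  have e : 3 * (K.m * (K.Z - K.p * K.q) / (3 * w)) * s = K.m * (K.Z - K.p * K.q) * s / w := by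
    field_simp
  rw [e, le_div_iff₀ hw] at ha' hc'
  refine ⟨ha, by positivity, ?_, ?_⟩
  · have h1 : w * (K.m ^ 2 * (K.Z - K.p * K.q) * a + K.S * K.Z * c) ≤
        w * (s * (K.m * (K.Z - K.p * K.q))) := by
      calc w * (K.m ^ 2 * (K.Z - K.p * K.q) * a + K.S * K.Z * c) =
          K.m ^ 2 * (K.Z - K.p * K.q) * (a * w) + K.S * K.Z * (c * w) := by ring
        _ ≤ K.m ^ 2 * (K.Z - K.p * K.q) * (K.m * (K.Z - K.p * K.q) * s) +
            K.S * K.Z * (K.m * (K.Z - K.p * K.q) * s) := by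
          gcongr
        _ = w * (s * (K.m * (K.Z - K.p * K.q))) := by rw [hwd]; ring
    exact le_of_mul_le_mul_left h1 hw
  · have h0 : 0 ≤ K.S * (K.Z - K.m ^ 2) * c := by
      have : 0 ≤ K.Z - K.m ^ 2 := by linarith
      positivity
    have hs : 0 ≤ s := by
      have : 0 ≤ a * w := by positivity
      have h5 : 0 ≤ (K.m * (K.Z - K.p * K.q)) * s := this.trans ha'
      exact nonneg_of_mul_nonneg_right h5 (by positivity)
    have h2 : K.m ^ 2 * a ≤ s * K.m := by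
      have h3 : (K.Z - K.p * K.q) * (K.m ^ 2 * a) ≤ (K.Z - K.p * K.q) * (s * K.m) := by
        have h4 : 0 ≤ K.S * K.Z * a := by positivity
        calc (K.Z - K.p * K.q) * (K.m ^ 2 * a) ≤ a * w := by rw [hwd]; nlinarith
          _ ≤ K.m * (K.Z - K.p * K.q) * s := ha'
          _ = (K.Z - K.p * K.q) * (s * K.m) := by ring
      exact le_of_mul_le_mul_left h3 hZpq
    have h3 : K.m ^ 2 * (K.p * K.q) * a ≤ s * (K.m * (K.p * K.q)) := by
      calc K.m ^ 2 * (K.p * K.q) * a = (K.p * K.q) * (K.m ^ 2 * a) := by ring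
        _ ≤ (K.p * K.q) * (s * K.m) := mul_le_mul_of_nonneg_left h2 (by positivity)
        _ = s * (K.m * (K.p * K.q)) := by ring
    linarith

/-- the square of side `2 R` around a point has many lattice points -/
theorem square_card (x y R : ℝ) (hR : 1 ≤ 2 * R) :
    (2 * R - 1) ^ 2 ≤ (((Icc ⌈x - R⌉ ⌊x + R⌋) ×ˢ (Icc ⌈y - R⌉ ⌊y + R⌋)).card : ℝ) := by
  rw [card_product]
  push_cast
  have h1 := card_Icc_ge (x - R) (x + R)
  have h2 := card_Icc_ge (y - R) (y + R)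
  rw [sq]
  exact mul_le_mul (by linarith) (by linarith) (by linarith) (Nat.cast_nonneg _)

theorem fill (h1 : ContainT) (h2 : AddT) (h3 : DimT) (h4 : CountT) : FillT := by
  classical
  intro K hr η hη
  obtain ⟨ρ, hρ, hbox⟩ := Q_box K
  set D : ℝ := 1 + |K.μ - K.J| with hD
  have hD1 : 1 ≤ D := by rw [hD]; linarith [abs_nonneg (K.μ - K.J)]
  set κ : ℝ := ρ * (η / 2) / (2 * D) with hκ
  have hκ0 : 0 < κ := by positivity
  have hκD : κ * D = ρ * (η / 2) / 2 := by rw [hκ]; field_simp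
  obtain ⟨B1, hB1⟩ := h4 K (κ ^ 2) (by positivity)
  refine ⟨max (max (2 * B1) (1 / κ)) (2 / (3 * ρ * (η / 2))), fun B hB t => ?_⟩
  have hBa : B1 ≤ B / 2 := by
    have := (le_max_left (2 * B1) (1 / κ)).trans ((le_max_left _ _).trans hB)
    linarith
  have hBb : 1 ≤ κ * B := by
    have := (le_max_right (2 * B1) (1 / κ)).trans ((le_max_left _ _).trans hB)
    rw [div_le_iff₀ hκ0] at this
    linarith
  have hBc : 2 ≤ 3 * ρ * (η / 2 * B) := by
    have := (le_max_right _ _).trans hB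
    rw [div_le_iff₀ (by positivity)] at this
    linarith
  have hB0 : 0 < B := by
    by_contra h
    push Not at h
    nlinarith
  set e : ℝ := η / 2 * B * ρ with he
  set k : ℤ := ⌈1 + 2 * e⌉ with hk
  set i : ℤ := ⌈1 + 2 * e - (K.μ - K.J) * k - K.p * B / K.S + t⌉ with hi
  have hk1 := Int.le_ceil (1 + 2 * e)
  have hk2 := Int.ceil_lt_add_one (1 + 2 * e)
  have hi1 := Int.le_ceil (1 + 2 * e - (K.μ - K.J) * k - K.p * B / K.S + t)
  have hi2 := Int.ceil_lt_add_one (1 + 2 * e - (K.μ - K.J) * k - K.p * B / K.S + t)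
  rw [← hk] at hk1 hk2
  rw [← hi] at hi1 hi2
  refine ⟨i, k, fun F _ z hz => ?_⟩
  set z' : ℤ × ℤ := (z.1 + i, z.2 + k) with hz'
  set R : ℝ := κ * B with hR
  have hRD : R * D = e / 2 := by
    calc R * D = κ * D * B := by rw [hR]; ring
      _ = e / 2 := by rw [hκD, he]; ring
  have hRe : R ≤ e / 2 := by
    rw [← hRD]
    have : 0 < R := by positivity
    nlinarith
  have he0 : 0 ≤ e := by positivity
  -- the points near `z' / 2` are in the quadrilateral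
  have key : ∀ w : ℤ × ℤ, |(w.1 : ℝ) - z'.1 / 2| ≤ R → |(w.2 : ℝ) - z'.2 / 2| ≤ R →
      w ∈ K.QQ (B / 2) (K.p * (B / 2) / K.S) := by
    intro w hw1 hw2
    have q1 : K.Q ((1 - η) * B) z.2 (z.1 + (K.μ - K.J) * z.2 + t) := hz
    have q2 : K.Q (η / 2 * B) (k - 2 * e) (i + (K.μ - K.J) * k + K.p * B / K.S - t - 2 * e) := by
      refine hbox _ _ _ ?_ ?_ ?_ ?_ <;> linarith
    have q3 := Q_half (Q_add q1 q2)
    have a1 := abs_le.1 hw1
    have a2 := abs_le.1 hw2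
    have hz1 : (z'.1 : ℝ) = z.1 + i := by rw [hz']; push_cast; ring
    have hz2 : (z'.2 : ℝ) = z.2 + k := by rw [hz']; push_cast; ring
    set d1 : ℝ := (w.1 : ℝ) - z'.1 / 2 with hd1
    set d2 : ℝ := (w.2 : ℝ) - z'.2 / 2 with hd2
    have a3 : |d1 + (K.μ - K.J) * d2| ≤ e / 2 := by
      calc |d1 + (K.μ - K.J) * d2| ≤ |d1| + |(K.μ - K.J) * d2| := abs_add_le _ _
        _ = |d1| + |K.μ - K.J| * |d2| := by rw [abs_mul]
        _ ≤ R + |K.μ - K.J| * R := by gcongr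
        _ = R * D := by rw [hD]; ring
        _ = e / 2 := hRD
    have a4 := abs_le.1 a3
    have q4 : K.Q (η / 2 * B / 2) (d2 + e) (d1 + (K.μ - K.J) * d2 + e) := by
      have e3 : 3 * ρ * (η / 2 * B / 2) = 3 * e / 2 := by rw [he]; ring
      refine hbox _ _ _ ?_ ?_ ?_ ?_
      · linarith
      · rw [e3]; linarith
      · linarith
      · rw [e3]; linarith
    have q5 := Q_add q3 q4
    change K.Q (B / 2) w.2 (w.1 + (K.μ - K.J) * w.2 + K.p * (B / 2) / K.S)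
    convert q5 using 1
    · ring
    · rw [hd2, hz2]; ring
    · rw [hd1, hd2, hz1, hz2]; ring
  -- the exceptional points
  set L : Set (ℤ × ℤ) := Lds F K (B / 2) with hL
  set M : Set (ℤ × ℤ) := K.QQ (B / 2) (K.p * (B / 2) / K.S) with hM
  obtain ⟨hfin, hcard⟩ := hB1 (B / 2) hBa
  have hLM : L ⊆ M := h1 K hr F (B / 2)
  have hLfin : L.Finite := hfin.subset hLM
  have hdim := h3 K hr F (B / 2) hLfin
  have hbad : ((M \ L).ncard : ℝ) ≤ κ ^ 2 * (B / 2) ^ 2 := by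
    have c1 := Set.ncard_sdiff hLM hLfin
    have c2 : L.ncard ≤ M.ncard := Set.ncard_le_ncard hLM hfin
    rw [c1, Nat.cast_sub c2]
    have c3 : ((Reg 0 (B / 2) K.μ K.ν).ncard : ℝ) ≤ (L.ncard : ℝ) := by exact_mod_cast hdim
    linarith
  set W : Finset (ℤ × ℤ) := (Icc ⌈(z'.1 : ℝ) / 2 - R⌉ ⌊(z'.1 : ℝ) / 2 + R⌋) ×ˢ
    (Icc ⌈(z'.2 : ℝ) / 2 - R⌉ ⌊(z'.2 : ℝ) / 2 + R⌋) with hW
  have hWc := square_card ((z'.1 : ℝ) / 2) ((z'.2 : ℝ) / 2) R (by linarith)
  rw [← hW] at hWc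
  have hWm : ∀ w ∈ W, |(w.1 : ℝ) - z'.1 / 2| ≤ R ∧ |(w.2 : ℝ) - z'.2 / 2| ≤ R := by
    intro w hw
    rw [hW, mem_product, mem_Icc, mem_Icc, Int.ceil_le, Int.le_floor, Int.ceil_le,
      Int.le_floor] at hw
    obtain ⟨⟨w1, w2⟩, w3, w4⟩ := hw
    exact ⟨abs_le.2 ⟨by linarith, by linarith⟩, abs_le.2 ⟨by linarith, by linarith⟩⟩
  have hex : ∃ w ∈ W, w ∈ L ∧ z' - w ∈ L := by
    by_contra hno
    push Not at hno
    have hsub : (W : Set (ℤ × ℤ)) ⊆ (M \ L) ∪ (fun w => z' - w) '' (M \ L) := by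
      intro w hw
      have hw' := hWm w (mem_coe.1 hw)
      by_cases hwL : w ∈ L
      · right
        refine ⟨z' - w, ⟨key _ ?_ ?_, hno w (mem_coe.1 hw) hwL⟩, by simp⟩
        · have : (((z' - w).1 : ℤ) : ℝ) - z'.1 / 2 = -((w.1 : ℝ) - z'.1 / 2) := by
            rw [Prod.fst_sub]; push_cast; ring
          rw [this, abs_neg]
          exact hw'.1
        · have : (((z' - w).2 : ℤ) : ℝ) - z'.2 / 2 = -((w.2 : ℝ) - z'.2 / 2) := by
            rw [Prod.snd_sub]; push_cast; ring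
          rw [this, abs_neg]
          exact hw'.2
      · exact Or.inl ⟨key _ hw'.1 hw'.2, hwL⟩
    have hMf : (M \ L).Finite := hfin.subset Set.sdiff_subset
    have c1 : (W.card : ℝ) ≤ (M \ L).ncard + (M \ L).ncard := by
      have c2 : W.card ≤ (M \ L).ncard + ((fun w => z' - w) '' (M \ L)).ncard := by
        rw [← Set.ncard_coe_finset]
        exact (Set.ncard_le_ncard hsub (hMf.union (hMf.image _))).trans (Set.ncard_union_le _ _)
      have c3 : ((fun w => z' - w) '' (M \ L)).ncard ≤ (M \ L).ncard := Set.ncard_image_le hMf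
      exact_mod_cast c2.trans (by omega)
    have c4 : R ^ 2 ≤ (2 * R - 1) ^ 2 := by nlinarith
    have c5 : R ^ 2 ≤ 2 * (κ ^ 2 * (B / 2) ^ 2) := by linarith
    have c6 : 2 * (κ ^ 2 * (B / 2) ^ 2) = R ^ 2 / 2 := by rw [hR]; ring
    have c7 : 0 < R ^ 2 := by positivity
    linarith
  obtain ⟨w, -, hw1, hw2⟩ := hex
  have := h2 K hr F (B / 2) (B / 2) w (z' - w) hw1 hw2
  rwa [add_halves, add_sub_cancel] at this

end Pool.Agent.J6H42.VT
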